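import Pool.Agent.Helper6.NX.GoalsD

/-!
# NX-E3: all moments after boundedly many steps
-/

set_option linter.unusedVariables false

namespace Pool.Agent.Helper73.NX

open Equiv Filter Topology Pool.Agent.Helper15.An Pool.Agent.Helper6.NX

/-- the iterates are laws, and keep the bound of the transition probabilities of tuples -/
theorem itm_props (hmx : S_MX) {n : ℕ} {κ : Perm (Fin n) → ℝ} (hκ : IsLaw κ) (i : ℕ) :
    IsLaw (itm κ i) ∧ ∀ (j : ℕ) (c : ℝ), (∀ a b : Fin j ↪ Fin n, prT κ a b ≤ c) →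
      ∀ a b : Fin j ↪ Fin n, prT (itm κ i) a b ≤ c := by
  induction i with
  | zero => exact ⟨hκ, fun j c h => h⟩
  | succ i ih =>
    have h := hmx n (itm κ i) (itm κ i) ih.1 ih.1
    exact ⟨h.1, fun j c hc => h.2.2.1 j c (ih.2 j c hc)⟩

/-- a small moment from the bound for the transition probabilities -/
theorem mom_le_two (hmom0 : S_MOM0) {n j : ℕ} {κ : Perm (Fin n) → ℝ}
    (h : ∀ a b : Fin j ↪ Fin n, prT κ a b ≤ 2 / (n.descFactorial j : ℝ)) : mom κ j ≤ 2 := by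
  rw [hmom0 n j κ]
  have hcard : (Finset.univ : Finset (Fin j ↪ Fin n)).card = n.descFactorial j := by
    rw [Finset.card_univ, Fintype.card_embedding_eq, Fintype.card_fin, Fintype.card_fin]
  calc ∑ a : Fin j ↪ Fin n, prT κ a a
      ≤ ∑ _a : Fin j ↪ Fin n, 2 / (n.descFactorial j : ℝ) := Finset.sum_le_sum fun a _ => h a a
    _ = (n.descFactorial j : ℝ) * (2 / (n.descFactorial j : ℝ)) := by
        rw [Finset.sum_const, hcard, nsmul_eq_mul]
    _ ≤ 2 := by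
        rcases Nat.eq_zero_or_pos (n.descFactorial j) with h0 | h0
        · rw [h0]; norm_num
        · have : (n.descFactorial j : ℝ) ≠ 0 := by exact_mod_cast h0.ne'
          rw [mul_div_cancel₀ _ this]

theorem thmE3 (hmom0 : S_MOM0) (hmx : S_MX) (he1 : S_E1) (he2 : S_E2) : S_E3 := by
  intro ξ γ' α hξ hξ4 hγ hγ20 hα hα1
  -- the number of steps
  obtain ⟨J₁, hJ₁⟩ : ∃ J : ℕ, 3 / 10 ≤ (3 / 2 : ℝ) ^ J * ξ := by
    obtain ⟨J, hJ⟩ := pow_unbounded_of_one_lt (3 / 10 / ξ) (show (1 : ℝ) < 3 / 2 by norm_num)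
    refine ⟨J, ?_⟩
    rw [div_lt_iff₀ hξ] at hJ
    exact hJ.le
  refine ⟨J₁ + 2, ?_⟩
  have hlog : ∀ᶠ n : ℕ in atTop, 16 / ξ ≤ Real.log n :=
    (Real.tendsto_log_atTop.comp tendsto_natCast_atTop_atTop).eventually_ge_atTop _
  have hpow : ∀ᶠ n : ℕ in atTop, (12 : ℝ) ≤ (n : ℝ) ^ (1 / 20 - γ') :=
    ((tendsto_rpow_atTop (by linarith : 0 < 1 / 20 - γ')).comp
      tendsto_natCast_atTop_atTop).eventually_ge_atTop _
  filter_upwards [hlog, hpow, eventually_ge_atTop 2] with n hlog hpow hn κ hκ hbig hsmall f hf1 hfn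
  have hn0 : (0 : ℝ) < n := by
    have : (2 : ℝ) ≤ n := by exact_mod_cast hn
    linarith
  have hn1 : (1 : ℝ) ≤ n := by
    have : (2 : ℝ) ≤ n := by exact_mod_cast hn
    linarith
  have hlogpos : 0 < Real.log n := lt_of_lt_of_le (by positivity) hlog
  set f₀ : ℕ := ⌈(n : ℝ) ^ (1 - γ')⌉₊ with hf₀
  have hf₀big : 12 * (n : ℝ) ^ (19 / 20 : ℝ) ≤ f₀ := by
    have h1 : (n : ℝ) ^ (1 - γ') = (n : ℝ) ^ (1 / 20 - γ') * (n : ℝ) ^ (19 / 20 : ℝ) := by
      rw [← Real.rpow_add hn0]; congr 1; ring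
    calc 12 * (n : ℝ) ^ (19 / 20 : ℝ) ≤ (n : ℝ) ^ (1 / 20 - γ') * (n : ℝ) ^ (19 / 20 : ℝ) :=
          mul_le_mul_of_nonneg_right hpow (by positivity)
      _ = (n : ℝ) ^ (1 - γ') := h1.symm
      _ ≤ f₀ := Nat.le_ceil _
  have hmom2 : ∀ i j : ℕ, j < f₀ → mom (itm κ i) j ≤ 2 := by
    intro i j hj
    have hj' : (j : ℝ) ≤ (n : ℝ) ^ α :=
      (Nat.lt_ceil.1 hj).le.trans (Real.rpow_le_rpow_of_exponent_le hn1 hα.le)
    exact mom_le_two hmom0 ((itm_props hmx hκ i).2 j _ (hsmall j hj'))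
  -- the losses
  have hL : 8 / Real.log n ≤ ξ / 2 := by
    rw [div_le_iff₀ hlogpos]
    rw [div_le_iff₀ hξ] at hlog
    linarith
  have hmain : ∀ i : ℕ, ∀ j : ℕ, f₀ ≤ j → j ≤ n →
      mom (itm κ i) j ≤ (n : ℝ) ^ ((1 - min ((3 / 2 : ℝ) ^ i * ξ) (3 / 10)) * j) := by
    intro i
    induction i with
    | zero =>
      intro j hj hjn
      have h1 : min ((3 / 2 : ℝ) ^ 0 * ξ) (3 / 10) = ξ := by
        rw [pow_zero, one_mul]; exact min_eq_left (by linarith)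
      rw [h1]
      refine hbig j hjn ?_
      exact (Nat.le_ceil _).trans (by exact_mod_cast hj)
    | succ i ih =>
      intro j hj hjn
      set x := min ((3 / 2 : ℝ) ^ i * ξ) (3 / 10) with hx
      have hp1 : (1 : ℝ) ≤ (3 / 2 : ℝ) ^ i := one_le_pow₀ (by norm_num)
      have hxξ : ξ ≤ x := by
        refine le_min ?_ (by linarith)
        nlinarith
      have hx1 : x ≤ (3 / 2 : ℝ) ^ i * ξ := min_le_left _ _
      have hx2 : x ≤ 3 / 10 := min_le_right _ _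
      have h1 := he1 n f₀ (itm κ i) x (by omega) (itm_props hmx hκ i).1 (by linarith)
        (hmom2 i) ih j hjn
      have h2 : Real.exp (8 * j) = (n : ℝ) ^ (8 / Real.log n * j) := by
        rw [Real.rpow_def_of_pos hn0]
        congr 1
        field_simp
      rw [h2, ← Real.rpow_add hn0] at h1
      refine h1.trans (Real.rpow_le_rpow_of_exponent_le hn1 ?_)
      rw [← add_mul]
      refine mul_le_mul_of_nonneg_right ?_ (Nat.cast_nonneg j)
      have h3 : (3 / 2 : ℝ) * x = min ((3 / 2 : ℝ) ^ (i + 1) * ξ) (9 / 20) := by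
        rw [hx, mul_min_of_nonneg _ _ (by norm_num : (0 : ℝ) ≤ 3 / 2)]
        congr 1
        · ring
        · norm_num
      have h4 : min ((3 / 2 : ℝ) ^ (i + 1) * ξ) (3 / 10) ≤ 3 / 2 * x := by
        rw [h3]; exact min_le_min le_rfl (by norm_num)
      have h5 : min ((3 / 2 : ℝ) ^ (i + 1) * ξ) (3 / 10) ≤ 3 / 10 := min_le_right _ _
      have h6 : max (1 - 2 * x) (1 / 2) ≤
          1 - min ((3 / 2 : ℝ) ^ (i + 1) * ξ) (3 / 10) - 8 / Real.log n := by
        refine max_le ?_ ?_ <;> linarith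
      linarith
  have hlast : ∀ j : ℕ, f₀ ≤ j → j ≤ n →
      mom (itm κ J₁) j ≤ (n : ℝ) ^ ((7 / 10 : ℝ) * j) := by
    intro j hj hjn
    have h := hmain J₁ j hj hjn
    rw [min_eq_right hJ₁] at h
    have h7 : (1 - 3 / 10 : ℝ) = 7 / 10 := by norm_num
    rwa [h7] at h
  exact he2 n f₀ (itm κ J₁) (by omega) (itm_props hmx hκ J₁).1 hf₀big (hmom2 J₁) hlast f hf1 hfn

end Pool.Agent.Helper73.NX
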